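import Pool.Agent.H75.Kus.Lin
import Pool.Agent.H75.Kus.Iso

/-!
# SymmetricSets: definitions of the statement
-/

set_option autoImplicit false

namespace Pool.H3.MV.SymmetricSets

open Finset Matrix

/-- A real kernel `K` on `S` is invariant under the group `Γ` of permutations of `ℝ^d`. -/
def Invariant {d : ℕ} (Γ : Subgroup (Equiv.Perm (Fin d → ℝ))) (S : Finset (Fin d → ℝ))
    (K : (Fin d → ℝ) → (Fin d → ℝ) → ℝ) : Prop :=
  ∀ g ∈ Γ, ∀ x ∈ S, ∀ y ∈ S, K (g x) (g y) = K x y

/-- Any two `Γ`-invariant real kernels on `S` commute (under the product of `S × S` matrices).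
When `Γ` maps `S` to itself this says that the permutation representation of `Γ` on the
functions on `S` is multiplicity free. -/
def MultiplicityFree {d : ℕ} (Γ : Subgroup (Equiv.Perm (Fin d → ℝ)))
    (S : Finset (Fin d → ℝ)) : Prop :=
  ∀ K L : (Fin d → ℝ) → (Fin d → ℝ) → ℝ, Invariant Γ S K → Invariant Γ S L →
    ∀ x ∈ S, ∀ z ∈ S, ∑ y ∈ S, K x y * L y z = ∑ y ∈ S, L x y * K y z

end Pool.H3.MV.SymmetricSets
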