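import Pool.Agent.H75.Kus.Lin
import Pool.Agent.H75.Kus.Iso
import Pool.Agent.H3.MV.SymmetricSetsDefs

/-!
# SymmetricSets: the proof
-/

set_option autoImplicit false

namespace Pool.H3.MV.SymmetricSets

open Finset Matrix

/-- The feature map: apply `f` to all signed centred coordinates. -/
private def F {d : ℕ} (c : Fin d → ℝ) (f : ℝ → ℝ) (x : Fin d → ℝ) (ω : Fin d × ℤˣ) : ℝ :=
  f (((ω.2 : ℤ) : ℝ) * (x ω.1 - c ω.1))

theorem centre_fixed {d : ℕ} (S : Finset (Fin d → ℝ)) (hne : S.Nonempty)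
    (g : Equiv.Perm (Fin d → ℝ)) (hgS : ∀ x ∈ S, g x ∈ S)
    (σ : Equiv.Perm (Fin d)) (ε : Fin d → ℤˣ) (t : Fin d → ℝ)
    (hg : ∀ x i, g x i = (((ε i : ℤˣ) : ℤ) : ℝ) * x (σ i) + t i)
    (c : Fin d → ℝ) (hc : ∀ i, c i = (S.card : ℝ)⁻¹ * ∑ x ∈ S, x i) (x : Fin d → ℝ) (i : Fin d) :
    g x i - c i = (((ε i : ℤˣ) : ℤ) : ℝ) * (x (σ i) - c (σ i)) := by
  classical
  have hcard : (S.card : ℝ) ≠ 0 := by
    have := Finset.card_pos.2 hne
    positivity
  have himg : S.image g = S := by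
    apply Finset.eq_of_subset_of_card_le
    · intro y hy
      obtain ⟨x, hx, rfl⟩ := Finset.mem_image.1 hy
      exact hgS x hx
    · rw [Finset.card_image_of_injective _ g.injective]
  have hsum : ∑ x ∈ S, g x i = ∑ x ∈ S, x i := by
    conv_rhs => rw [← himg]
    rw [Finset.sum_image (fun a _ b _ h => g.injective h)]
  have h1 : c i = (((ε i : ℤˣ) : ℤ) : ℝ) * c (σ i) + t i := by
    rw [hc i, hc (σ i), ← hsum]
    simp only [hg]
    rw [Finset.sum_add_distrib, ← Finset.mul_sum, Finset.sum_const, nsmul_eq_mul]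
    field_simp
  rw [hg]
  linear_combination -h1

theorem F_invariant {d : ℕ} (S : Finset (Fin d → ℝ)) (hne : S.Nonempty)
    (Γ : Subgroup (Equiv.Perm (Fin d → ℝ)))
    (hiso : ∀ g ∈ Γ, ∀ x y, ∑ i, |g x i - g y i| = ∑ i, |x i - y i|)
    (hinv : ∀ g ∈ Γ, ∀ x ∈ S, g x ∈ S)
    (c : Fin d → ℝ) (hc : ∀ i, c i = (S.card : ℝ)⁻¹ * ∑ x ∈ S, x i) (f h : ℝ → ℝ) :
    Invariant Γ S (fun x y => ∑ ω, F c f x ω * F c h y ω) := by
  intro g hg x _ y _
  obtain ⟨σ, ε, t, hgx⟩ := Pool.Agent.H75.Kus.iso_l1 g (hiso g hg)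
  have hcent := fun x i => centre_fixed S hne g (hinv g hg) σ ε t hgx c hc x i
  let τ : Fin d × ℤˣ → Fin d × ℤˣ := fun ω => (σ ω.1, ω.2 * ε ω.1)
  have hτ : Function.Bijective τ := by
    apply Finite.injective_iff_bijective.1
    rintro ⟨i, u⟩ ⟨j, w⟩ hij
    simp only [τ, Prod.mk.injEq, EmbeddingLike.apply_eq_iff_eq] at hij
    obtain ⟨rfl, h2⟩ := hij
    have := mul_right_cancel h2
    rw [this]
  have hF : ∀ (f : ℝ → ℝ) (x : Fin d → ℝ) (ω : Fin d × ℤˣ), F c f (g x) ω = F c f x (τ ω) := by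
    intro f x ω
    simp only [F, τ, hcent, Units.val_mul, Int.cast_mul]
    rw [mul_assoc]
  simp only [hF]
  exact hτ.sum_comp (fun ω => F c f x ω * F c h y ω)

theorem main : ∀ d : ℕ, 1 ≤ d → ∀ S : Finset (Fin d → ℝ),
    (∀ x ∈ S, ∀ y ∈ S, x ≠ y → ∑ i, |x i - y i| = 2) →
    ∀ Γ : Subgroup (Equiv.Perm (Fin d → ℝ)),
      (∀ g ∈ Γ, ∀ x y, ∑ i, |g x i - g y i| = ∑ i, |x i - y i|) →
      (∀ g ∈ Γ, ∀ x ∈ S, g x ∈ S) →
      MultiplicityFree Γ S → S.card ≤ 2 * d := by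
  classical
  intro d hd S hS Γ hiso hinv hmf
  rcases S.eq_empty_or_nonempty with rfl | hne
  · simp
  let c : Fin d → ℝ := fun i => (S.card : ℝ)⁻¹ * ∑ x ∈ S, x i
  have hc : ∀ i, c i = (S.card : ℝ)⁻¹ * ∑ x ∈ S, x i := fun i => rfl
  let B : (ℝ → ℝ) → Matrix {x // x ∈ S} (Fin d × ℤˣ) ℝ := fun f => Matrix.of fun x ω => F c f x.1 ω
  have hB : ∀ (f h : ℝ → ℝ) (x y : {x // x ∈ S}),
      (B f * (B h)ᵀ) x y = ∑ ω, F c f x.1 ω * F c h y.1 ω := by
    intro f h x y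
    simp [B, Matrix.mul_apply]
  have hcomm : ∀ f h : ℝ → ℝ,
      (B f * (B f)ᵀ) * (B h * (B f)ᵀ) = (B h * (B f)ᵀ) * (B f * (B f)ᵀ) := by
    intro f h
    ext x z
    rw [Matrix.mul_apply, Matrix.mul_apply]
    simp only [hB]
    have := hmf _ _ (F_invariant S hne Γ hiso hinv c hc f f) (F_invariant S hne Γ hiso hinv c hc h f)
      x.1 x.2 z.1 z.2
    have hs : ∀ G : (Fin d → ℝ) → ℝ, ∑ y : {x // x ∈ S}, G y.1 = ∑ y ∈ S, G y :=
      fun G => Finset.sum_coe_sort S G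
    exact (hs _).trans (this.trans (hs _).symm)
  have hlin : ∀ (f h : ℝ → ℝ) (e : ℝ), B f + e • B h = B (fun s => f s + e * h s) := by
    intro f h e
    ext x ω
    simp [B, F]
  -- a function of maximal rank
  obtain ⟨f0, hf0⟩ : ∃ f0, ∀ f, (B f).rank ≤ (B f0).rank := by
    let m : (ℝ → ℝ) → ℕ := fun f => Fintype.card (Fin d × ℤˣ) - (B f).rank
    obtain ⟨f1, h1⟩ : ∃ f1, ∀ f, m f1 ≤ m f := ⟨Function.argmin m, fun f => Function.argmin_le m f⟩
    refine ⟨f1, fun f => ?_⟩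
    have h2 : (B f).rank ≤ Fintype.card (Fin d × ℤˣ) := Matrix.rank_le_card_width _
    have h3 : (B f1).rank ≤ Fintype.card (Fin d × ℤˣ) := Matrix.rank_le_card_width _
    have h4 := h1 f
    simp only [m] at h4
    omega
  have hrange : ∀ (h : ℝ → ℝ) (v : Fin d × ℤˣ → ℝ), ∃ w, B h *ᵥ v = B f0 *ᵥ w := by
    intro h v
    refine Pool.Agent.H75.Kus.range_step (B f0) (B h) (fun e => ?_) (hcomm f0 h) v
    rw [hlin]
    exact hf0 _
  by_contra hcon
  push Not at hcon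
  have hcardΩ : Module.finrank ℝ (Fin d × ℤˣ → ℝ) = 2 * d := by
    rw [Module.finrank_pi, Fintype.card_prod, Fintype.card_fin, Fintype.card_units_int]
    ring
  have hcardι : Module.finrank ℝ ({x // x ∈ S} → ℝ) = S.card := by
    rw [Module.finrank_pi, Fintype.card_coe]
  have hker := LinearMap.ker_ne_bot_of_finrank_lt (f := ((B f0)ᵀ).mulVecLin)
    (by rw [hcardΩ, hcardι]; exact hcon)
  obtain ⟨z, hz, hz0⟩ := (Submodule.ne_bot_iff _).1 hker
  rw [LinearMap.mem_ker, Matrix.mulVecLin_apply] at hz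
  have horth : ∀ (h : ℝ → ℝ) (i : Fin d), ∑ x : {x // x ∈ S}, z x * h (x.1 i - c i) = 0 := by
    intro h i
    obtain ⟨w, hw⟩ := hrange h (Pi.single (i, 1) 1)
    have h1 : z ⬝ᵥ (B f0 *ᵥ w) = 0 := by
      rw [Matrix.dotProduct_mulVec, ← Matrix.mulVec_transpose, hz, zero_dotProduct]
    rw [← hw] at h1
    have h2 : ∀ x : {x // x ∈ S}, (B h *ᵥ Pi.single (i, (1 : ℤˣ)) 1) x = h (x.1 i - c i) := by
      intro x
      rw [Matrix.mulVec_single_one]
      simp [B, F]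
    rw [dotProduct] at h1
    simpa only [h2] using h1
  have hD : ∀ y : {x // x ∈ S}, ∑ x : {x // x ∈ S}, z x * ∑ i, |x.1 i - y.1 i| = 0 := by
    intro y
    simp only [Finset.mul_sum]
    rw [Finset.sum_comm]
    refine Finset.sum_eq_zero fun i _ => ?_
    have := horth (fun s => |s + c i - y.1 i|) i
    simpa using this
  have hZ : ∑ x : {x // x ∈ S}, z x = 0 := by
    have := horth (fun _ => 1) ⟨0, hd⟩
    simpa using this
  apply hz0
  funext y
  have h1 := hD y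
  rw [← Finset.add_sum_erase _ _ (Finset.mem_univ y)] at h1
  have h2 : ∀ x ∈ (Finset.univ : Finset {x // x ∈ S}).erase y,
      z x * ∑ i, |x.1 i - y.1 i| = z x * 2 := by
    intro x hx
    rw [hS x.1 x.2 y.1 y.2 (fun h => (Finset.ne_of_mem_erase hx) (Subtype.ext h))]
  rw [Finset.sum_congr rfl h2, ← Finset.sum_mul] at h1
  have h3 := hZ
  rw [← Finset.add_sum_erase _ _ (Finset.mem_univ y)] at h3
  simp only [sub_self, abs_zero, Finset.sum_const_zero, mul_zero, zero_add] at h1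
  have h4 : ∑ x ∈ (Finset.univ : Finset {x // x ∈ S}).erase y, z x = 0 := by linarith
  rw [h4, add_zero] at h3
  simpa using h3

theorem sum_perm {d : ℕ} (S : Finset (Fin d → ℝ)) (g : Equiv.Perm (Fin d → ℝ))
    (hgS : ∀ x ∈ S, g x ∈ S) (G : (Fin d → ℝ) → ℝ) : ∑ y ∈ S, G (g y) = ∑ y ∈ S, G y := by
  classical
  have himg : S.image g = S := by
    apply Finset.eq_of_subset_of_card_le
    · intro y hy
      obtain ⟨x, hx, rfl⟩ := Finset.mem_image.1 hy
      exact hgS x hx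
    · rw [Finset.card_image_of_injective _ g.injective]
  conv_rhs => rw [← himg]
  rw [Finset.sum_image (fun a _ b _ h => g.injective h)]

/-- If any two points of `S` can be interchanged by `Γ`, the invariant kernels commute. -/
theorem mf_of_swap {d : ℕ} (Γ : Subgroup (Equiv.Perm (Fin d → ℝ))) (S : Finset (Fin d → ℝ))
    (hinv : ∀ g ∈ Γ, ∀ x ∈ S, g x ∈ S)
    (hsw : ∀ x ∈ S, ∀ y ∈ S, ∃ g ∈ Γ, g x = y ∧ g y = x) : MultiplicityFree Γ S := by
  have hsym : ∀ K : (Fin d → ℝ) → (Fin d → ℝ) → ℝ, Invariant Γ S K →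
      ∀ x ∈ S, ∀ y ∈ S, K x y = K y x := by
    intro K hK x hx y hy
    obtain ⟨g, hg, h1, h2⟩ := hsw x hx y hy
    have := hK g hg x hx y hy
    rw [h1, h2] at this
    exact this.symm
  intro K L hK hL x hx z hz
  have hKL : Invariant Γ S (fun x z => ∑ y ∈ S, K x y * L y z) := by
    intro g hg x hx z hz
    show ∑ y ∈ S, K (g x) y * L y (g z) = ∑ y ∈ S, K x y * L y z
    rw [← sum_perm S g (hinv g hg) (fun y => K (g x) y * L y (g z))]
    refine Finset.sum_congr rfl fun y hy => ?_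
    rw [hK g hg x hx y hy, hL g hg y hy z hz]
  have h1 : ∑ y ∈ S, K x y * L y z = ∑ y ∈ S, K z y * L y x := hsym _ hKL x hx z hz
  rw [h1]
  refine Finset.sum_congr rfl fun y hy => ?_
  rw [hsym K hK z hz y hy, hsym L hL y hy x hx, mul_comm]

/-- If `Γ` is commutative and transitive on `S`, the invariant kernels commute. -/
theorem mf_of_abelian {d : ℕ} (Γ : Subgroup (Equiv.Perm (Fin d → ℝ))) (S : Finset (Fin d → ℝ))
    (hinv : ∀ g ∈ Γ, ∀ x ∈ S, g x ∈ S) (hab : ∀ g ∈ Γ, ∀ k ∈ Γ, g * k = k * g)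
    (htr : ∀ x ∈ S, ∀ y ∈ S, ∃ g ∈ Γ, g x = y) : MultiplicityFree Γ S := by
  classical
  intro K L hK hL x hx z hz
  choose! γ hγΓ hγ using fun y (hy : y ∈ S) => htr x hx y hy
  have hfix : ∀ g ∈ Γ, ∀ a ∈ S, ∀ b ∈ S, g a = a → g b = b := by
    intro g hg a ha b hb h
    obtain ⟨k, hk, rfl⟩ := htr a ha b hb
    have : (g * k) a = (k * g) a := by rw [hab g hg k hk]
    simpa [Equiv.Perm.mul_apply, h] using this
  have hmem : ∀ y ∈ S, (γ y)⁻¹ z ∈ S := fun y hy => hinv _ (Γ.inv_mem (hγΓ y hy)) z hz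
  refine Finset.sum_bij (fun y _ => (γ y)⁻¹ z) hmem ?_ ?_ ?_
  · intro y hy w hw h
    have h1 : (γ w * (γ y)⁻¹) z = z := by
      rw [Equiv.Perm.mul_apply, h]
      simp
    have h2 := hfix _ (Γ.mul_mem (hγΓ w hw) (Γ.inv_mem (hγΓ y hy))) z hz y hy h1
    rw [Equiv.Perm.mul_apply] at h2
    have h3 : (γ y)⁻¹ y = x := by
      rw [Equiv.Perm.inv_eq_iff_eq]
      exact (hγ y hy).symm
    rw [h3, hγ w hw] at h2
    exact h2.symm
  · have hinj : Set.InjOn (fun y => (γ y)⁻¹ z) (S : Set (Fin d → ℝ)) := by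
      intro y hy w hw h
      have h1 : (γ w * (γ y)⁻¹) z = z := by
        rw [Equiv.Perm.mul_apply]
        have h' : (γ y)⁻¹ z = (γ w)⁻¹ z := h
        rw [h']
        simp
      have h2 := hfix _ (Γ.mul_mem (hγΓ w hw) (Γ.inv_mem (hγΓ y hy))) z hz y hy h1
      rw [Equiv.Perm.mul_apply] at h2
      have h3 : (γ y)⁻¹ y = x := by
        rw [Equiv.Perm.inv_eq_iff_eq]
        exact (hγ y hy).symm
      rw [h3, hγ w hw] at h2
      exact h2.symm
    have himg : S.image (fun y => (γ y)⁻¹ z) = S := by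
      apply Finset.eq_of_subset_of_card_le
      · intro y hy
        obtain ⟨w, hw, rfl⟩ := Finset.mem_image.1 hy
        exact hmem w hw
      · rw [Finset.card_image_of_injOn hinj]
    intro w hw
    rw [← himg] at hw
    obtain ⟨y, hy, h⟩ := Finset.mem_image.1 hw
    exact ⟨y, hy, h⟩
  · intro y hy
    have e1 : L y z = L x ((γ y)⁻¹ z) := by
      have := hL (γ y) (hγΓ y hy) x hx _ (hmem y hy)
      rw [hγ y hy] at this
      rw [← this]
      simp
    have e2 : K x y = K ((γ y)⁻¹ z) z := by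
      obtain ⟨k, hk, hkx⟩ := htr x hx z hz
      have h1 := hK (γ y) (hγΓ y hy) _ (hmem y hy) z hz
      have h2 := hK k hk x hx y hy
      have h3 : k y = γ y z := by
        rw [← hkx, ← hγ y hy]
        have : (k * γ y) x = (γ y * k) x := by rw [hab k hk _ (hγΓ y hy)]
        simpa [Equiv.Perm.mul_apply, hγ y hy] using this
      rw [hkx, h3] at h2
      rw [← h2, ← h1]
      simp
    rw [e1, e2, mul_comm]

/-- An `ℓ₁`-equilateral set in `ℝ^d` that is invariant under a group `Γ` of isometries of the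
`ℓ₁` norm has at most `2d` points, provided that any two of its points can be interchanged by
`Γ`, or `Γ` is commutative and acts transitively on it, or, more generally, any two
`Γ`-invariant kernels on it commute. -/
theorem result : ∀ d : ℕ, 1 ≤ d → ∀ S : Finset (Fin d → ℝ),
    (∀ x ∈ S, ∀ y ∈ S, x ≠ y → ∑ i, |x i - y i| = 2) →
    ∀ Γ : Subgroup (Equiv.Perm (Fin d → ℝ)),
      (∀ g ∈ Γ, ∀ x y, ∑ i, |g x i - g y i| = ∑ i, |x i - y i|) →
      (∀ g ∈ Γ, ∀ x ∈ S, g x ∈ S) →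
      ((∀ x ∈ S, ∀ y ∈ S, ∃ g ∈ Γ, g x = y ∧ g y = x) ∨
        ((∀ g ∈ Γ, ∀ k ∈ Γ, g * k = k * g) ∧ ∀ x ∈ S, ∀ y ∈ S, ∃ g ∈ Γ, g x = y) ∨
        MultiplicityFree Γ S) →
      S.card ≤ 2 * d := by
  intro d hd S hS Γ hiso hinv h
  refine main d hd S hS Γ hiso hinv ?_
  rcases h with h | ⟨h1, h2⟩ | h
  · exact mf_of_swap Γ S hinv h
  · exact mf_of_abelian Γ S hinv h1 h2
  · exact h

end Pool.H3.MV.SymmetricSets
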